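import Pool.Agent.Helper4.CD.St

/-!
# Project CD (MP_a41ee4_co), module PROP: circuits with the same zero set are proportional
-/

set_option autoImplicit false

namespace Pool.Agent.Helper29.CD

open Pool.Agent.Helper4.CD
open Module

theorem hPROP : StPROP := by
  intro K _ _ _ V _ _ κ c g g' hker hg hg' hz
  have hk : ∃ k, c k g ≠ 0 := by
    by_contra hcon
    exact hg.1 (hker g fun k => by
      by_contra hne
      exact hcon ⟨k, hne⟩)
  obtain ⟨k, hk⟩ := hk
  have hk' : c k g' ≠ 0 := fun h => hk ((hz k).2 h)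
  refine ⟨c k g' / c k g, div_ne_zero hk' hk, ?_⟩
  by_contra hne
  have hx : g' - (c k g' / c k g) • g ≠ 0 := sub_ne_zero.2 hne
  refine hk (hg.2 _ hx (fun j hj => ?_) k ?_)
  · rw [map_sub, map_smul, (hz j).1 hj, hj, smul_zero, sub_zero]
  · rw [map_sub, map_smul, smul_eq_mul, div_mul_cancel₀ _ hk, sub_self]

end Pool.Agent.Helper29.CD
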